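import Pool.Agent.helper5.SYM.SpecB
import Pool.Agent.helper56.CT.Fin1

set_option autoImplicit false

namespace Pool.Agent.SYM
open Finset CT Polynomial

theorem A1C_sum {α : Type} (S : Finset α) (f : α → ℕ) (x : ℤ) :
    x ^ 2 ∣ ∑ t ∈ S, x ^ f t - (((S.filter fun t => f t = 0).card : ℤ) +
      x * ((S.filter fun t => f t = 1).card : ℤ)) := by
  rw [Finset.card_filter, Finset.card_filter]
  push_cast
  rw [Finset.mul_sum, ← Finset.sum_add_distrib, ← Finset.sum_sub_distrib]
  refine Finset.dvd_sum fun t _ => ?_
  rcases Nat.lt_or_ge (f t) 2 with h | h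
  · have h2 : f t = 0 ∨ f t = 1 := by omega
    rcases h2 with h2 | h2
    · rw [h2]
      simp
    · rw [h2]
      simp
  · rw [if_neg (by omega), if_neg (by omega), mul_zero, add_zero, sub_zero]
    exact pow_dvd_pow x h

theorem A1C (hZPF : ZPF_stmt) : A1C_stmt := by
  classical
  intro V _ _ G v e L hG hn he h1 h2 h3 hL hLs hC
  by_contra hodd
  rw [Nat.not_odd_iff_even] at hodd
  apply hC
  have hG' : G.IsRegularOfDegree 4 := by
    intro u
    rw [← hG u, Nat.card_eq_fintype_card, ← SimpleGraph.card_neighborSet_eq_degree]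
    rfl
  have hv : v ∉ L := by
    intro h
    have : v ∈ L.toFinset := List.mem_toFinset.2 h
    rw [hLs] at this
    simp at this
  have hins : insert v L.toFinset = univ := by rw [hLs]; exact Finset.insert_erase (mem_univ v)
  have hlen : L.length + 1 = Fintype.card V := by
    have := List.toFinset_card_of_nodup hL
    rw [← this, hLs, Finset.card_erase_of_mem (mem_univ v), Finset.card_univ]
    omega
  have hact : Act (dts (insert v L.toFinset)) e := by rw [hins]; exact he
  have c0 := core fE1 fE2 fE4 fB5 fJC3 G v hG' (by omega) (card_edges V G v hG' (by omega)) e he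
    h1 h2 h3 L hL hLs
  have c1 := JZ5 V (-4) v L e hL hv hact
  obtain ⟨c2, _⟩ := fJC3 V v L e hL hv (by omega) hact
  have hLv : (L ++ [v]).Nodup := by
    rw [List.nodup_append]
    refine ⟨hL, by simp, ?_⟩
    intro a ha b hb hab
    simp only [List.mem_singleton] at hb
    rw [hb] at hab
    rw [hab] at ha
    exact hv ha
  have hLvs : (L ++ [v]).toFinset = insert v L.toFinset := by
    rw [List.toFinset_append]
    ext w
    simp
  have c3 := fJC1 V (L ++ [v]) e hLv (by rw [List.length_append]; simp; omega)
    (by rw [hLvs]; exact hact)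
  have s4 := A1C_sum (pf L.toFinset) (fun t => lps L e t) (-4)
  have s2 := A1C_sum (pf L.toFinset) (fun t => lps L e t) (-2)
  rw [← hZPF V (-4) L e hL] at s4
  rw [← hZPF V (-2) L e hL] at s2
  apply (c2_of_dvd (decompletion G v) ?_).1
  obtain ⟨b, hb⟩ := hodd
  have hb' : (((pf L.toFinset).filter fun t => lps L e t = 1).card : ℤ) = b + b := by
    rw [hb]
    push_cast
    rfl
  rw [hb'] at s4 s2
  rw [c1] at c0 c2 c3
  generalize (((pf L.toFinset).filter fun t => lps L e t = 0).card : ℤ) = a0 at s4 s2
  generalize Z (-4) L e = z4 at *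
  generalize Z (-2) L e = z2 at *
  norm_num at s4 s2 c0 c2 c3
  omega

end Pool.Agent.SYM
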